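import Mathlib
import Pool.Agent.H439R2.MC.MinDegFF

namespace Pool.Agent.Results.MP_5de61a_co.AllDegrees

open Finset
open scoped Classical
open Pool.Agent.Helper996 Pool.Agent.H439R2.MC

/-- `e(A,B)`: the number of pairs `(u,v)` with `u ∈ A`, `v ∈ B` and `uv` an edge of `G`. -/
noncomputable def crossing {n : ℕ} (G : SimpleGraph (Fin n)) (A B : Finset (Fin n)) : ℕ :=
  ((A ×ˢ B).filter (fun p => G.Adj p.1 p.2)).card

/-- `b(G)`: the largest value of `e(V₁,V₂)` over bisections, `|V₁| ≤ |V₂| ≤ |V₁|+1`. -/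
noncomputable def maxBisection {n : ℕ} (G : SimpleGraph (Fin n)) : ℕ :=
  sSup {k : ℕ | ∃ A : Finset (Fin n), A.card ≤ Aᶜ.card ∧ Aᶜ.card ≤ A.card + 1 ∧
    crossing G A Aᶜ = k}

/-- `b_d(m)`: the least `b(G)` over graphs with `m` edges and minimum degree at least `d`. -/
noncomputable def bdeg (d m : ℕ) : ℕ :=
  sInf {k : ℕ | ∃ (n : ℕ) (G : SimpleGraph (Fin n)), G.edgeSet.ncard = m ∧
    (∀ v, d ≤ (G.neighborSet v).ncard) ∧ maxBisection G = k}

/-- `F(j)`: the least value of `∑ ⌊n_i²/4⌋` over finite lists of integers with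
`∑ C(n_i,2) ≥ j`. -/
noncomputable def cliqueCost (j : ℕ) : ℕ :=
  sInf {c : ℕ | ∃ L : List ℕ, j ≤ (L.map (fun n => n.choose 2)).sum ∧
    c = (L.map (fun n => n ^ 2 / 4)).sum}

theorem cost_eq (j : ℕ) : cliqueCost j = ff j := (ff_eq_FF j).symm

theorem bddAbove_bis {n : ℕ} (G : SimpleGraph (Fin n)) :
    BddAbove {k : ℕ | ∃ A : Finset (Fin n), A.card ≤ Aᶜ.card ∧ Aᶜ.card ≤ A.card + 1 ∧
      crossing G A Aᶜ = k} := by
  refine ⟨n * n, ?_⟩
  rintro k ⟨A, -, -, rfl⟩
  unfold crossing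
  refine (card_filter_le _ _).trans ?_
  rw [card_product]
  exact Nat.mul_le_mul (by simpa using card_le_univ A) (by simpa using card_le_univ Aᶜ)

theorem nb {n : ℕ} (G : SimpleGraph (Fin n)) (v : Fin n) :
    (univ.filter (fun u => G.Adj u v)).card = (G.neighborSet v).ncard := by
  rw [← Set.ncard_coe_finset]
  congr 1
  ext u
  simp [SimpleGraph.adj_comm]

theorem bdeg_le {d m n : ℕ} (G : SimpleGraph (Fin n)) (hm : G.edgeSet.ncard = m)
    (hdeg : ∀ v, d ≤ (univ.filter (fun u => G.Adj u v)).card) (R : ℕ)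
    (hR : ∀ S : Finset (Fin n), S.card ≤ Sᶜ.card → Sᶜ.card ≤ S.card + 1 →
        Final.cr G S ≤ R) : bdeg d m ≤ R := by
  have h1 : bdeg d m ≤ maxBisection G :=
    Nat.sInf_le ⟨n, G, hm, fun v => by rw [← nb]; exact hdeg v, rfl⟩
  refine h1.trans ?_
  apply csSup_le'
  rintro k ⟨S, hs1, hs2, rfl⟩
  exact hR S hs1 hs2

/-- arithmetic of the parameters -/
theorem params {d m t j : ℕ} (hd : 2 ≤ d) (hm : 400 * d ^ 4 ≤ m)
    (htj : 2 * d * t + j = m + d * (d + 1) / 2) (hj : j < 2 * d) :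
    ((2 * (d : ℤ) * t + j) * 2 = 2 * m + d * (d + 1)) ∧ 20 * d ^ 3 ≤ t := by
  obtain ⟨c, hc⟩ := Nat.even_mul_succ_self d
  have h1 : d * (d + 1) / 2 = c := by omega
  rw [h1] at htj
  constructor
  · have h2 : 2 * (d : ℤ) * t + j = m + c := by exact_mod_cast htj
    have h3 : (d : ℤ) * (d + 1) = c + c := by exact_mod_cast hc
    linarith
  · by_contra hcon
    have h4 : t + 1 ≤ 20 * d ^ 3 := by omega
    have h5 : 2 * d * (t + 1) ≤ 2 * d * (20 * d ^ 3) := Nat.mul_le_mul_left _ h4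
    have h6 : 2 * d * (20 * d ^ 3) = 40 * d ^ 4 := by ring
    have h7 : 0 < d ^ 4 := by positivity
    have h8 : 2 * d * t + 2 * d = 2 * d * (t + 1) := by ring
    omega

/-- the hub graph: `K_d` joined to everything, plus an optimal graph with `j` edges -/
theorem hub_graph {d m t j : ℕ} (hd : 2 ≤ d) (hm : 400 * d ^ 4 ≤ m)
    (htj : 2 * d * t + j = m + d * (d + 1) / 2) (hj : j < 2 * d) :
    ∃ G : SimpleGraph (Fin (2 * t)), G.edgeSet.ncard = m ∧
      (∀ v, d ≤ (univ.filter (fun u => G.Adj u v)).card) ∧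
      ∀ S : Finset (Fin (2 * t)), S.card ≤ Sᶜ.card → Sᶜ.card ≤ S.card + 1 →
        Final.cr G S ≤ d * t + ff j := by
  obtain ⟨hp, ht⟩ := params hd hm htj hj
  have hd3 : d ≤ d ^ 3 := Nat.le_self_pow (by norm_num) d
  obtain ⟨A, -, hA⟩ := exists_subset_card_eq (s := (univ : Finset (Fin (2 * t)))) (n := d)
    (by rw [card_univ, Fintype.card_fin]; omega)
  obtain ⟨W, _, _, H, hW, hH, hf⟩ := small_graph j
  obtain ⟨H', hH'1, hH'2, hH'3⟩ := MinDegUpper.transport (V := Fin (2 * t)) H Aᶜ (by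
    rw [card_compl, Fintype.card_fin, hA]; omega)
  obtain ⟨G, hG⟩ : ∃ G : SimpleGraph (Fin (2 * t)), G = Upper.GA A ⊔ H' := ⟨_, rfl⟩
  obtain ⟨h1, h2⟩ := MinDegUpper.join_upper A H' (fun u v h => by
    have := hH'1 u v h
    rw [mem_compl, mem_compl] at this
    exact this)
  have h3 := MinDegUpper.deg_join A H' (by rw [hA, Fintype.card_fin]; omega)
  rw [← hG] at h1 h2
  rw [hA, Fintype.card_fin, hH'2, hH] at h1
  have hGm : G.edgeSet.ncard = m := by
    push_cast at h1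
    have : (G.edgeSet.ncard : ℤ) = m := by linarith
    exact_mod_cast this
  refine ⟨G, hGm, ?_, ?_⟩
  · intro v
    have := h3 v
    rw [hA] at this
    refine this.trans (card_le_card ?_)
    intro u hu
    have hu' := (mem_filter.mp hu).2
    rw [← hG] at hu'
    exact mem_filter.mpr ⟨mem_univ _, hu'⟩
  · intro S hs1 hs2
    have h4 := h2 S hs1 hs2
    obtain ⟨S', hS'⟩ := hH'3 S
    have h5 := hf S'
    rw [← hS'] at h5
    rw [hA, Fintype.card_fin] at h4
    have hsg : Final.sg (Fin (2 * t)) = 0 := by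
      unfold Final.sg
      rw [Fintype.card_fin, if_pos (even_two_mul t)]
    rw [hsg] at h4
    push_cast at h4
    have h6 : (Final.cr G S : ℤ) ≤ d * t + Final.cr H' S := by linarith
    have h7 : Final.cr G S ≤ d * t + Final.cr H' S := by exact_mod_cast h6
    omega

theorem upper_f {d m t j : ℕ} (hd : 2 ≤ d) (hm : 400 * d ^ 4 ≤ m)
    (htj : 2 * d * t + j = m + d * (d + 1) / 2) (hj : j < 2 * d) :
    bdeg d m ≤ d * t + ff j := by
  obtain ⟨G, h1, h2, h3⟩ := hub_graph hd hm htj hj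
  exact bdeg_le G h1 h2 _ h3

/-- upper bound by removing edges inside the hub. -/
theorem upper_neg {d m t j : ℕ} (hd : 2 ≤ d) (hm : 400 * d ^ 4 ≤ m)
    (htj : 2 * d * t + j = m + d * (d + 1) / 2) (hj : j < 2 * d)
    (hi : 2 * (2 * d - j) ≤ d * (d - 1)) : bdeg d m ≤ d * t + d := by
  obtain ⟨hp, ht⟩ := params hd hm htj hj
  have hd3 : d ≤ d ^ 3 := Nat.le_self_pow (by norm_num) d
  obtain ⟨A, -, hA⟩ := exists_subset_card_eq (s := (univ : Finset (Fin (2 * (t + 1))))) (n := d)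
    (by rw [card_univ, Fintype.card_fin]; omega)
  obtain ⟨G, h1, h3, h2⟩ := MinDegUpper.neg_upper A (2 * d - j) (by rw [hA]; exact hi)
    (by rw [hA, Fintype.card_fin]; omega)
  rw [hA, Fintype.card_fin] at h1
  have hGm : G.edgeSet.ncard = m := by
    rw [Nat.cast_sub hj.le] at h1
    push_cast at h1
    have : (G.edgeSet.ncard : ℤ) = m := by linarith
    exact_mod_cast this
  refine bdeg_le G hGm ?_ _ ?_
  · intro v
    have := h3 v
    rw [hA] at this
    exact this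
  · intro S hs1 hs2
    have h4 := h2 S hs1 hs2
    rw [hA, Fintype.card_fin] at h4
    have hsg : Final.sg (Fin (2 * (t + 1))) = 0 := by
      unfold Final.sg
      rw [Fintype.card_fin, if_pos (even_two_mul (t + 1))]
    rw [hsg] at h4
    push_cast at h4
    have h6 : (Final.cr G S : ℤ) ≤ d * t + d := by linarith
    exact_mod_cast h6

theorem upper {d m t j : ℕ} (hd : 2 ≤ d) (hm : 400 * d ^ 4 ≤ m)
    (htj : 2 * d * t + j = m + d * (d + 1) / 2) (hj : j < 2 * d) :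
    bdeg d m ≤ d * t + min (ff j) d := by
  have h1 := upper_f hd hm htj hj
  by_cases hi : 2 * (2 * d - j) ≤ d * (d - 1)
  · have h2 := upper_neg hd hm htj hj hi
    omega
  · have h3 := ff_le_self j
    have h4 : j ≤ d := by
      push Not at hi
      obtain ⟨c, rfl⟩ : ∃ c, d = c + 2 := ⟨d - 2, by omega⟩
      have e : c + 2 - 1 = c + 1 := by omega
      rw [e] at hi
      by_contra hcon
      push Not at hcon
      have h5 : 2 * (c + 2) - j ≤ c + 1 := by omega
      nlinarith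
    omega

theorem lower {d m t j : ℕ} (hd : 2 ≤ d) (hm : 400 * d ^ 4 ≤ m)
    (htj : 2 * d * t + j = m + d * (d + 1) / 2) (hj : j < 2 * d) :
    d * t + min (ff j) d ≤ bdeg d m := by
  obtain ⟨G0, h01, h02, -⟩ := hub_graph hd hm htj hj
  have hmem := Nat.sInf_mem (s := {k : ℕ | ∃ (n : ℕ) (G : SimpleGraph (Fin n)),
    G.edgeSet.ncard = m ∧ (∀ v, d ≤ (G.neighborSet v).ncard) ∧ maxBisection G = k})
    ⟨_, _, G0, h01, fun v => by rw [← nb]; exact h02 v, rfl⟩
  obtain ⟨n, G, hG1, hG2, hG3⟩ := hmem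
  change maxBisection G = bdeg d m at hG3
  obtain ⟨S, h1, h2, h3⟩ := lower_ff G d m t j hd hG1 hm
    (fun v => by rw [nb]; exact hG2 v) htj hj
  rw [← hG3]
  exact h3.trans (le_csSup (bddAbove_bis G) ⟨S, h1, h2, rfl⟩)

/-- For every `d ≥ 2` and every `m ≥ 400 d⁴`, with `M = m + d(d+1)/2`, `t = ⌊M/(2d)⌋` and
`j = M mod 2d`: `b_d(m) = d t + min(F(j), d)`. -/
theorem result : ∀ d m : ℕ, 2 ≤ d → 400 * d ^ 4 ≤ m →
    bdeg d m = d * ((m + d * (d + 1) / 2) / (2 * d))
      + min (cliqueCost ((m + d * (d + 1) / 2) % (2 * d))) d := by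
  intro d m hd hm
  have htj := Nat.div_add_mod (m + d * (d + 1) / 2) (2 * d)
  have hj := Nat.mod_lt (m + d * (d + 1) / 2) (show 2 * d > 0 by omega)
  rw [cost_eq]
  exact le_antisymm (upper hd hm htj hj) (lower hd hm htj hj)

end Pool.Agent.Results.MP_5de61a_co.AllDegrees
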